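import Pool.Agent.R154.FT.Main3

set_option autoImplicit false

namespace Pool.Agent.Results.MP_1e1427_nt.LogSquared

/-- For every `ε > 0` every large odd `n` has at least `n ^ (1 - ε)` representations as a sum of four squares for
which all prime factors of `2 ^ (x + y) + 2 ^ (z + w) + 1` exceed `c (log n) ^ 2`. -/
theorem result : ∀ ε : ℝ, 0 < ε → ∃ c : ℝ, 0 < c ∧ ∃ n0 : ℕ, ∀ n : ℕ, n0 ≤ n → Odd n →
    ∃ T : Finset (ℕ × ℕ × ℕ × ℕ), (n : ℝ) ^ (1 - ε) ≤ (T.card : ℝ) ∧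
      ∀ x y z w : ℕ, (x, y, z, w) ∈ T → n = x ^ 2 + y ^ 2 + z ^ 2 + w ^ 2 ∧
        ∀ q : ℕ, q.Prime → q ∣ 2 ^ (x + y) + 2 ^ (z + w) + 1 → c * (Real.log n) ^ 2 < q :=
  fun ε hε => Pool.Agent.R154.FT.main3 ε hε

end Pool.Agent.Results.MP_1e1427_nt.LogSquared
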