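import Pool.Agent.R330.AF.Fmain

namespace Pool.Agent.Results.MP_1e1427_nt.ManyQuadruples

/-- There are `c > 0` and `X₀` such that for all `X ≥ X₀` at least `c·X` odd numbers `n ≤ X` have at
least `c·√X/log X` quadruples `(x,y,z,w)` with `n = x²+y²+z²+w²` for which all prime factors of
`2^(x+y)+2^(z+w)+1` are larger than `c·√X·log X`. -/
theorem result : ∃ c : ℝ, 0 < c ∧ ∃ X₀ : ℕ, ∀ X : ℕ, X₀ ≤ X →
    c * X ≤ (Set.ncard {n : ℕ | n ≤ X ∧ Odd n ∧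
      c * √(X : ℝ) / Real.log X ≤ (Set.ncard {p : ℕ × ℕ × ℕ × ℕ |
        n = p.1 ^ 2 + p.2.1 ^ 2 + p.2.2.1 ^ 2 + p.2.2.2 ^ 2 ∧
        ∀ q : ℕ, q.Prime → q ∣ 2 ^ (p.1 + p.2.1) + 2 ^ (p.2.2.1 + p.2.2.2) + 1 →
          c * √(X : ℝ) * Real.log X < q} : ℝ)} : ℝ) :=
  Pool.Agent.R330.AF.main2

end Pool.Agent.Results.MP_1e1427_nt.ManyQuadruples
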