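import Pool.Agent.R154.FS.Main

namespace Pool.Agent.Results.MP_1e1427_nt.PositiveProportion

open Finset Pool.Agent.R154.FS

/-- (1) For all `1 ≤ B ≤ √X/8`, at least `c·X/(1 + B·log X/√X)` odd numbers `n ≤ X` are of the form
`x²+y²+z²+w²` with all prime factors of `2^(x+y)+2^(z+w)+1` larger than `B`.
(2) For all large `X`, at least `c·X` odd numbers `n ≤ X` are of the form `x²+y²+z²+w²` with all
prime factors of `2^(x+y)+2^(z+w)+1` larger than `√X/(8·log X)`. -/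
theorem result : ∃ c : ℝ, 0 < c ∧
    (∀ X : ℕ, ∀ B : ℝ, 1 ≤ B → B ≤ √(X : ℝ) / 8 →
      c * X / (1 + B * Real.log X / √(X : ℝ)) ≤
        (Set.ncard {n : ℕ | n ≤ X ∧ Odd n ∧ ∃ x y z w : ℕ, n = x ^ 2 + y ^ 2 + z ^ 2 + w ^ 2 ∧
          ∀ q : ℕ, q.Prime → q ∣ 2 ^ (x + y) + 2 ^ (z + w) + 1 → B < q} : ℝ)) ∧
    (∃ X₀ : ℕ, ∀ X : ℕ, X₀ ≤ X →
      c * X ≤
        (Set.ncard {n : ℕ | n ≤ X ∧ Odd n ∧ ∃ x y z w : ℕ, n = x ^ 2 + y ^ 2 + z ^ 2 + w ^ 2 ∧
          ∀ q : ℕ, q.Prime → q ∣ 2 ^ (x + y) + 2 ^ (z + w) + 1 →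
            √(X : ℝ) / (8 * Real.log X) < q} : ℝ)) := by
  classical
  obtain ⟨c, hc, hmain⟩ := main
  have key : ∀ X : ℕ, ∀ B : ℝ, 1 ≤ B → B ≤ √(X : ℝ) / 8 →
      c * X / (1 + B * Real.log X / √(X : ℝ)) ≤
        (Set.ncard {n : ℕ | n ≤ X ∧ Odd n ∧ ∃ x y z w : ℕ, n = x ^ 2 + y ^ 2 + z ^ 2 + w ^ 2 ∧
          ∀ q : ℕ, q.Prime → q ∣ 2 ^ (x + y) + 2 ^ (z + w) + 1 → B < q} : ℝ) := by
    intro X B h1 h2
    refine (hmain X B h1 h2).trans ?_
    have hfin : ({n : ℕ | n ≤ X ∧ Odd n ∧ ∃ x y z w : ℕ, n = x ^ 2 + y ^ 2 + z ^ 2 + w ^ 2 ∧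
          ∀ q : ℕ, q.Prime → q ∣ 2 ^ (x + y) + 2 ^ (z + w) + 1 → B < q}).Finite :=
      (Set.finite_Iic X).subset (fun n hn => hn.1)
    have := Set.ncard_le_ncard (s := (good X B : Set ℕ)) (t := {n : ℕ | n ≤ X ∧ Odd n ∧
      ∃ x y z w : ℕ, n = x ^ 2 + y ^ 2 + z ^ 2 + w ^ 2 ∧
          ∀ q : ℕ, q.Prime → q ∣ 2 ^ (x + y) + 2 ^ (z + w) + 1 → B < q}) (by
        intro n hn
        rw [mem_coe] at hn
        unfold good at hn
        rw [mem_filter, mem_Icc] at hn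
        exact ⟨hn.1.2, hn.2⟩) hfin
    rw [Set.ncard_coe_finset] at this
    exact_mod_cast this
  refine ⟨c / 2, by positivity, ?_, ?_⟩
  · intro X B h1 h2
    refine le_trans ?_ (key X B h1 h2)
    have h3 : 0 ≤ Real.log (X : ℝ) := Real.log_natCast_nonneg X
    have h4 : 0 ≤ B := by linarith
    gcongr
    linarith
  · -- large `X`
    have hlim : Filter.Tendsto (fun x : ℝ => Real.log x / x ^ ((1 : ℝ) / 2)) Filter.atTop (nhds 0) := by
      have := (isLittleO_log_rpow_atTop (r := (1 : ℝ) / 2) (by norm_num)).tendsto_div_nhds_zero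
      simpa using this
    have hev := (hlim.comp tendsto_natCast_atTop_atTop).eventually (gt_mem_nhds (show (0 : ℝ) < 1 / 8 by norm_num))
    obtain ⟨X₁, hX₁⟩ := Filter.eventually_atTop.1 hev
    refine ⟨max X₁ 3, fun X hX => ?_⟩
    have hX1 := hX₁ X (le_trans (le_max_left _ _) hX)
    have hX3 : 3 ≤ X := le_trans (le_max_right _ _) hX
    have hX3r : (3 : ℝ) ≤ X := by exact_mod_cast hX3
    have hlog : 1 ≤ Real.log (X : ℝ) := by
      rw [Real.le_log_iff_exp_le (by linarith)]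
      have := Real.exp_one_lt_d9
      linarith
    have hR : 0 < √(X : ℝ) := Real.sqrt_pos.2 (by linarith)
    simp only [Function.comp] at hX1
    rw [← Real.sqrt_eq_rpow, div_lt_iff₀ hR] at hX1
    have hB1 : 1 ≤ √(X : ℝ) / (8 * Real.log X) := by
      rw [le_div_iff₀ (by positivity)]
      linarith
    have hB2 : √(X : ℝ) / (8 * Real.log X) ≤ √(X : ℝ) / 8 := by
      apply div_le_div_of_nonneg_left hR.le (by norm_num)
      linarith
    refine le_trans ?_ (key X _ hB1 hB2)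
    have h5 : √(X : ℝ) / (8 * Real.log X) * Real.log X / √(X : ℝ) = 1 / 8 := by
      field_simp
    rw [h5]
    have hcX : 0 ≤ c * X := by positivity
    rw [le_div_iff₀ (by norm_num)]
    nlinarith

end Pool.Agent.Results.MP_1e1427_nt.PositiveProportion
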