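import Mathlib
import Pool.Agent.R494.SPL3

set_option autoImplicit false

/-!
# The question in random models of the primes

The question is whether every odd `n > 1` is a sum of four squares `x² + y² + z² + w²` of natural
numbers such that `2 ^ (x + y) + 2 ^ (z + w) + 1` is prime.  We answer it for all large odd `n`, with
an asymptotic formula for the number of quadruples, in EVERY sequential random model of the primes:
the integers are decided one after the other, only integers coprime to a fixed `Q` can be chosen,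
and the conditional probability of choosing `n + 1` (coprime to `Q`) given the past is asymptotic to
`(Q / φ(Q)) / log n`.  No independence is assumed.
-/

open MeasureTheory Filter
open scoped Topology

namespace Pool.Agent.Results.MP_1e1427_nt.SievedModels

/-- the quadruples of natural numbers with `n = x² + y² + z² + w²` for which
`2 ^ (x + y) + 2 ^ (z + w) + 1` belongs to `S` -/
def reps (S : Set ℕ) (n : ℕ) : Set (ℕ × ℕ × ℕ × ℕ) :=
  {v | n = v.1 ^ 2 + v.2.1 ^ 2 + v.2.2.1 ^ 2 + v.2.2.2 ^ 2 ∧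
    2 ^ (v.1 + v.2.1) + 2 ^ (v.2.2.1 + v.2.2.2) + 1 ∈ S}

/-- the sum of `(Q / φ(Q)) / log N` over the quadruples for which `N = 2 ^ (x + y) + 2 ^ (z + w) + 1`
is coprime to `Q` -/
noncomputable def expected (Q n : ℕ) : ℝ :=
  ∑ᶠ v ∈ reps {k : ℕ | Nat.Coprime k Q} n, ((Q : ℝ) / Nat.totient Q) /
    Real.log (((2 ^ (v.1 + v.2.1) + 2 ^ (v.2.2.1 + v.2.2.2) + 1 : ℕ) : ℝ))

open Pool.Agent.R494.SPL

open Classical in
lemma reps_eq (S : Set ℕ) (n : ℕ) :
    reps S n = (((quad n).filter (fun v => val2 v ∈ S) : Finset (ℕ × ℕ × ℕ × ℕ)) : Set (ℕ × ℕ × ℕ × ℕ)) := by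
  ext v
  rw [Finset.mem_coe, Finset.mem_filter, mem_quad]
  rfl

lemma reps_chosen {Ω : Type} {A : ℕ → Set Ω} (ω : Ω) (n : ℕ) :
    ((reps {k : ℕ | ω ∈ A k} n).ncard : ℝ) = ∑ v ∈ quad n, Pool.Agent.R528.RM.In A (val2 v) ω := by
  classical
  rw [reps_eq, Set.ncard_coe_finset, Finset.card_filter]
  push_cast
  refine Finset.sum_congr rfl fun v _ => ?_
  unfold Pool.Agent.R528.RM.In
  by_cases h : ω ∈ A (val2 v)
  · simp [h]
  · simp [h]

lemma expected_eq (Q : ℕ) : ∀ᶠ n : ℕ in atTop,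
    expected Q n = ∑ v ∈ quad n, Pool.Agent.R528.RM.rhoW Q (val2 v) := by
  classical
  have h1 : Tendsto (fun n : ℕ => Real.log ((Nat.sqrt n : ℕ) : ℝ)) atTop atTop :=
    (Real.tendsto_log_atTop.comp tendsto_natCast_atTop_atTop).comp sqrt_tendsto
  filter_upwards [h1.eventually_ge_atTop ((Q : ℝ) / Nat.totient Q), eventually_ge_atTop 1] with n h2 h3
  unfold expected
  rw [reps_eq, finsum_mem_coe_finset, Finset.sum_filter]
  refine Finset.sum_congr rfl fun v hv => ?_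
  unfold Pool.Agent.R528.RM.rhoW
  by_cases hc : Nat.Coprime (val2 v) Q
  · have hmem : val2 v ∈ {k : ℕ | Nat.Coprime k Q} := hc
    rw [if_pos hmem, if_pos hc]
    have hlow := val2_low hv
    obtain ⟨g1, -⟩ := log_val2 h3 hv
    have h4 : (Q : ℝ) / Nat.totient Q ≤ Real.log (val2 v : ℝ) := by
      refine h2.trans ?_
      have hs : 0 < Nat.sqrt n := Nat.sqrt_pos.2 h3
      apply Real.log_le_log (by exact_mod_cast hs)
      exact_mod_cast hlow
    rw [min_eq_right ((div_le_one g1).2 h4)]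
    rfl
  · have hmem : ¬ val2 v ∈ {k : ℕ | Nat.Coprime k Q} := hc
    rw [if_neg hmem, if_neg hc]

end Pool.Agent.Results.MP_1e1427_nt.SievedModels

open Pool.Agent.Results.MP_1e1427_nt.SievedModels

/-- Let `A n` be the event that `n` belongs to a random set adapted to a filtration `ℱ`, let
`Q ≥ 1`, let no integer which is not coprime to `Q` be chosen, and let the conditional probability of
`A (n + 1)` given `ℱ n`, times `log n`, tend to `Q / φ(Q)` along the `n` with `n + 1` coprime to `Q`,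
almost surely.  Let `R(n)` be the number of quadruples of natural numbers with
`n = x² + y² + z² + w²` for which `2 ^ (x + y) + 2 ^ (z + w) + 1` is chosen.  (1) For every `ε > 0`,
`expected Q n ≥ n ^ (1/2 - ε)` for all large odd `n`.  (2) Almost surely `R(n)` is asymptotic to
`expected Q n` as `n → ∞`, `n` odd.  (3) Almost surely, for every `ε > 0`, `R(n) ≥ n ^ (1/2 - ε)` for
all large odd `n`. -/
theorem Pool.Agent.Results.MP_1e1427_nt.SievedModels.result
    {Ω : Type} [mΩ : MeasurableSpace Ω] (μ : Measure Ω) [IsProbabilityMeasure μ]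
    (ℱ : Filtration ℕ mΩ) (A : ℕ → Set Ω) (hA : ∀ n, MeasurableSet[ℱ n] (A n))
    (Q : ℕ) (hQ : 0 < Q) (hcop : ∀ n, ¬ Nat.Coprime n Q → A n = ∅)
    (hd : ∀ᵐ ω ∂μ, Tendsto (fun n : ℕ =>
      (μ[(A (n + 1)).indicator (fun _ => (1 : ℝ)) | ℱ n]) ω * Real.log n)
      (atTop ⊓ 𝓟 {n : ℕ | Nat.Coprime (n + 1) Q}) (𝓝 ((Q : ℝ) / Nat.totient Q))) :
    (∀ ε : ℝ, 0 < ε → ∀ᶠ n : ℕ in atTop, Odd n → (n : ℝ) ^ (1 / 2 - ε) ≤ expected Q n) ∧
    (∀ᵐ ω ∂μ, ∀ η : ℝ, 0 < η → ∀ᶠ n : ℕ in atTop, Odd n →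
      |((reps {k : ℕ | ω ∈ A k} n).ncard : ℝ) - expected Q n| ≤ η * expected Q n) ∧
    (∀ᵐ ω ∂μ, ∀ ε : ℝ, 0 < ε → ∀ᶠ n : ℕ in atTop, Odd n →
      (n : ℝ) ^ (1 / 2 - ε) ≤ (reps {k : ℕ | ω ∈ A k} n).ncard) := by
  have h1 : ∀ ε : ℝ, 0 < ε → ∀ᶠ n : ℕ in atTop, Odd n → (n : ℝ) ^ (1 / 2 - ε) ≤ expected Q n := by
    intro ε hε
    filter_upwards [Pool.Agent.R494.SPL.low_E ε hε Q hQ, expected_eq Q] with n g1 g2 hn
    rw [g2]
    exact g1 hn
  have h2 : ∀ᵐ ω ∂μ, ∀ η : ℝ, 0 < η → ∀ᶠ n : ℕ in atTop, Odd n →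
      |((reps {k : ℕ | ω ∈ A k} n).ncard : ℝ) - expected Q n| ≤ η * expected Q n := by
    filter_upwards [Pool.Agent.R494.SPL.law2 (μ := μ) (ℱ := ℱ) hA Q hQ hcop hd] with ω hω η hη
    filter_upwards [hω η hη, expected_eq Q] with n g1 g2 hn
    rw [g2, reps_chosen]
    exact g1 hn
  refine ⟨h1, h2, ?_⟩
  filter_upwards [h2] with ω hω ε hε
  have e2 : ∀ᶠ n : ℕ in atTop, 2 ≤ (n : ℝ) ^ (ε / 2) :=
    ((tendsto_rpow_atTop (by positivity)).comp tendsto_natCast_atTop_atTop).eventually_ge_atTop _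
  filter_upwards [hω (1 / 2) (by norm_num), h1 (ε / 2) (by positivity), e2,
    eventually_ge_atTop 3] with n g1 g2 g3 g4 hn
  have hn0 : (0 : ℝ) < n := by exact_mod_cast (by omega : 0 < n)
  have k1 := (abs_le.1 (g1 hn)).1
  have k2 := g2 hn
  have k4 : (n : ℝ) ^ (1 / 2 - ε / 2) = (n : ℝ) ^ (1 / 2 - ε) * (n : ℝ) ^ (ε / 2) := by
    rw [← Real.rpow_add hn0]
    congr 1
    ring
  have k5 : (n : ℝ) ^ (1 / 2 - ε) * 2 ≤ (n : ℝ) ^ (1 / 2 - ε) * (n : ℝ) ^ (ε / 2) :=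
    mul_le_mul_of_nonneg_left g3 (by positivity)
  rw [k4] at k2
  linarith
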